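import Pool.Agent.SIM.Final

/-! Percolation games on Cayley graphs of exponential growth. -/

set_option autoImplicit false

open Filter Topology
open Pool.Agent.Helper30.Perc

namespace Pool.Agent.SIM.Kept.SimilarityAction

/-- The Cayley graph of `Γ` with respect to `S`: the vertices are the elements of `Γ`, and
`x ≠ y` are adjacent if and only if `x⁻¹ * y ∈ S` or `y⁻¹ * x ∈ S`. -/
def cayleyGraph {Γ : Type} [Group Γ] (S : Finset Γ) : SimpleGraph Γ :=
  SimpleGraph.fromRel fun x y => x⁻¹ * y ∈ S

/-- Some subgroup `H` of finite index in `Γ` acts on a nonempty complete metric space by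
similarities, `h` having ratio `lam h`, not all ratios being `1`, without common fixed point. -/
def ActsBySimilarities (Γ : Type) [Group Γ] : Prop :=
  ∃ (H : Subgroup Γ) (_ : H.FiniteIndex) (X : Type) (_ : MetricSpace X) (_ : CompleteSpace X)
    (_ : Nonempty X) (_ : MulAction H X) (lam : H → ℝ),
    (∀ (h : H) (x y : X), dist (h • x) (h • y) = lam h * dist x y) ∧ (∃ h, lam h ≠ 1) ∧
      ¬ ∃ x : X, ∀ h : H, h • x = x

/-- Percolation games on Cayley graphs of exponential growth. Let `Γ` be a group generated by a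
finite set `S`; suppose that its Cayley graph has exponential growth (the ball of radius `c * n`
about `1` has at least `2 ^ n` elements, for some `c` and all `n`), or that `Γ` virtually acts by
similarities (which implies exponential growth). Then `maxCap p / p` has a positive limit `b`, the
same for all roots, and Breaker wins for large `p` if `q > (b + ε) * p`. If `Γ` virtually acts by
similarities then Maker wins for large `p` if `q < (b - ε) * p`, so `b` is the critical bias. -/
theorem result
    (Γ : Type) [Group Γ] (S : Finset Γ) (hS : Subgroup.closure (S : Set Γ) = ⊤)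
    (hgr : (∃ c : ℕ, ∀ n : ℕ, 2 ^ n ≤ {g : Γ | (cayleyGraph S).dist 1 g ≤ c * n}.ncard) ∨
      ActsBySimilarities Γ) :
    ∃ b : ℝ, 0 < b ∧
      (∀ v₀ : Γ, Tendsto (fun p : ℕ => (maxCap (cayleyGraph S) v₀ p : ℝ) / (p : ℝ))
        atTop (𝓝 b)) ∧
      ∀ ε : ℝ, 0 < ε → ∃ p₀ : ℕ, ∀ p q : ℕ, p₀ ≤ p → ∀ v₀ : Γ,
        ((b + ε) * (p : ℝ) < (q : ℝ) → BreakerWins (cayleyGraph S) v₀ p q) ∧
        (ActsBySimilarities Γ → (q : ℝ) < (b - ε) * (p : ℝ) →
          MakerWins (cayleyGraph S) v₀ p q) :=
  Pool.Agent.SIM.final Γ S hS hgr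

end Pool.Agent.SIM.Kept.SimilarityAction
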